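import Pool.Agent.Lib.MP_f26228_lc.H95.AE

/-!
# MP_f26228_lc: a dispersive set without property (W)

Proof by helper40 (bushy tree forcing, see `S15611`); here in the almost everywhere form and with
the Hausdorff distance of the closures in the space of coarse similarity classes.
-/

set_option autoImplicit false

namespace Pool.Agent.Results.MP_f26228_lc.DispersiveNotW

open MeasureTheory Filter

/-- The coin-toss measure on `2^ω`. -/
noncomputable def coin : Measure (ℕ → Bool) :=
  Measure.infinitePi fun _ : ℕ => (PMF.uniformOfFintype Bool).toMeasure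

/-- `A ≤_T B`. -/
def TRed (A B : ℕ → Bool) : Prop :=
  TuringReducible (fun n => Part.some (A n).toNat) (fun n => Part.some (B n).toNat)

/-- `A ≡_T B`. -/
def TEquiv (A B : ℕ → Bool) : Prop := TRed A B ∧ TRed B A

/-- `δ(A, B)`: the upper density of the symmetric difference. -/
noncomputable def delta (A B : ℕ → Bool) : ℝ :=
  limsup (fun n : ℕ => (((Finset.range n).filter fun k => A k ≠ B k).card : ℝ) / (n : ℝ)) atTop

theorem delta_eq (A B : ℕ → Bool) : delta A B = Pool.Agent.Lib.MP_f26228_lc.dens A B := rfl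

theorem delta_self (A : ℕ → Bool) : delta A A = 0 := by
  unfold delta
  simp

theorem delta_comm (A B : ℕ → Bool) : delta A B = delta B A := by
  unfold delta
  congr 1
  funext n
  congr 3
  ext k
  simp [ne_comm]

theorem delta_triangle (A B C : ℕ → Bool) : delta A C ≤ delta A B + delta B C := by
  unfold delta
  have h : ∀ n : ℕ, (((Finset.range n).filter fun k => A k ≠ C k).card : ℝ) / (n : ℝ) ≤
      (((Finset.range n).filter fun k => A k ≠ B k).card : ℝ) / (n : ℝ) +
      (((Finset.range n).filter fun k => B k ≠ C k).card : ℝ) / (n : ℝ) := by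
    intro n
    rw [← add_div]
    refine div_le_div_of_nonneg_right ?_ (Nat.cast_nonneg _)
    have : ((Finset.range n).filter fun k => A k ≠ C k).card ≤
        ((Finset.range n).filter fun k => A k ≠ B k).card +
        ((Finset.range n).filter fun k => B k ≠ C k).card := by
      refine (Finset.card_le_card ?_).trans (Finset.card_union_le _ _)
      intro k hk
      rw [Finset.mem_filter] at hk
      rw [Finset.mem_union, Finset.mem_filter, Finset.mem_filter]
      by_cases hAB : A k = B k
      · exact Or.inr ⟨hk.1, fun h => hk.2 (hAB.trans h)⟩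
      · exact Or.inl ⟨hk.1, hAB⟩
    exact_mod_cast this
  have bu := fun X Y : ℕ → Bool => Pool.Agent.Lib.MP_f26228_lc.dens_bdd X Y
  have bl := fun X Y : ℕ → Bool => Pool.Agent.Lib.MP_f26228_lc.dens_bdd' X Y
  refine (limsup_le_limsup (Eventually.of_forall h) (bl A C).isCoboundedUnder_le ?_).trans ?_
  · exact isBoundedUnder_le_add (bu A B) (bu B C)
  · exact limsup_add_le (bl A B) (bu A B) (bl B C).isCoboundedUnder_le (bu B C)

/-- Subsets of `ω` with the pseudo-metric `δ`. -/
def PSet : Type := ℕ → Bool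

noncomputable instance : PseudoMetricSpace PSet where
  dist A B := delta A B
  dist_self := delta_self
  dist_comm := delta_comm
  dist_triangle := delta_triangle

/-- The metric space `(𝒮, δ)` of coarse similarity classes: subsets of `ω` at distance `0` are
identified. -/
abbrev CoarseClasses : Type := SeparationQuotient PSet

/-- The coarse similarity class of a set. -/
noncomputable def cls (A : ℕ → Bool) : CoarseClasses := SeparationQuotient.mk (show PSet from A)

/-- The closure in `(𝒮, δ)` of the set of classes of the elements of the degree of `A`. -/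
def closureOfDegree (A : ℕ → Bool) : Set CoarseClasses :=
  closure {c | ∃ C : ℕ → Bool, TEquiv C A ∧ c = cls C}

/-- The Hausdorff distance of the closures of the degrees. -/
noncomputable def H (A B : ℕ → Bool) : ℝ :=
  Metric.hausdorffDist (closureOfDegree A) (closureOfDegree B)

/-- `G` is weakly 1-generic relative to `A`. -/
def WeaklyGeneric (A G : ℕ → Bool) : Prop :=
  ∀ W : Set (List Bool),
    (∃ f : ℕ →. ℕ, TuringReducible f (fun n => Part.some (A n).toNat) ∧
      ∀ σ : List Bool, σ ∈ W ↔ (f (Encodable.encode σ)).Dom) →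
    (∀ σ : List Bool, ∃ τ ∈ W, σ <+: τ) →
    ∃ n : ℕ, List.ofFn (fun i : Fin n => G i) ∈ W

/-- `A` is dispersive: it is not attractive. -/
def Dispersive (A : ℕ → Bool) : Prop := ¬ ∀ᵐ B ∂coin, H A B = 1 / 2

/-- Property (W). -/
def PropertyW (A : ℕ → Bool) : Prop := ∀ᵐ B ∂coin, ∃ G, TRed G B ∧ WeaklyGeneric A G

instance : IsProbabilityMeasure coin := by
  unfold coin
  infer_instance

/-- Two sets are in the same class iff their symmetric difference has asymptotic density `0`. -/
theorem cls_eq_iff (A B : ℕ → Bool) : cls A = cls B ↔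
    Tendsto (fun n : ℕ => (((Finset.range n).filter fun k => A k ≠ B k).card : ℝ) / (n : ℝ))
      atTop (nhds 0) := by
  unfold cls
  rw [SeparationQuotient.mk_eq_mk, Metric.inseparable_iff]
  show delta A B = 0 ↔ _
  have bu := Pool.Agent.Lib.MP_f26228_lc.dens_bdd A B
  have bl := Pool.Agent.Lib.MP_f26228_lc.dens_bdd' A B
  constructor
  · intro h
    refine tendsto_of_le_liminf_of_limsup_le ?_ h.le bu bl
    exact le_liminf_of_le bu.isCoboundedUnder_ge
      (Eventually.of_forall fun n => Pool.Agent.Lib.MP_f26228_lc.ratio_nonneg A B n)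
  · intro h
    exact h.limsup_eq

theorem TEquiv.rfl' (A : ℕ → Bool) : TEquiv A A :=
  ⟨TuringReducible.refl _, TuringReducible.refl _⟩

theorem dist_cls (A B : ℕ → Bool) : dist (cls A) (cls B) = delta A B := rfl

theorem delta_le_one (A B : ℕ → Bool) : delta A B ≤ 1 :=
  Pool.Agent.Lib.MP_f26228_lc.dens_le_one A B

theorem H_le_one (A B : ℕ → Bool) : H A B ≤ 1 := by
  unfold H closureOfDegree
  rw [Metric.hausdorffDist_closure]
  refine Metric.hausdorffDist_le_of_mem_dist zero_le_one ?_ ?_
  · rintro _ ⟨C, -, rfl⟩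
    exact ⟨cls B, ⟨B, TEquiv.rfl' B, rfl⟩, by rw [dist_cls]; exact delta_le_one _ _⟩
  · rintro _ ⟨C, -, rfl⟩
    exact ⟨cls A, ⟨A, TEquiv.rfl' A, rfl⟩, by rw [dist_cls]; exact delta_le_one _ _⟩

theorem one_le_H {A B D : ℕ → Bool} (hD : TEquiv D B) (h : ∀ C, TRed C A → 1 ≤ delta C D) :
    1 ≤ H A B := by
  unfold H closureOfDegree
  rw [Metric.hausdorffDist_closure, Metric.hausdorffDist_comm]
  have hbdd : ∀ A : ℕ → Bool,
      Bornology.IsBounded {c : CoarseClasses | ∃ C : ℕ → Bool, TEquiv C A ∧ c = cls C} := by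
    intro A
    refine Metric.isBounded_iff.2 ⟨1, ?_⟩
    rintro _ ⟨C, -, rfl⟩ _ ⟨C', -, rfl⟩
    rw [dist_cls]
    exact delta_le_one _ _
  have hne : ∀ A : ℕ → Bool,
      {c : CoarseClasses | ∃ C : ℕ → Bool, TEquiv C A ∧ c = cls C}.Nonempty :=
    fun A => ⟨cls A, A, TEquiv.rfl' A, rfl⟩
  refine le_trans ?_ (Metric.infDist_le_hausdorffDist_of_mem (x := cls D) ⟨D, hD, rfl⟩
    (Metric.hausdorffEDist_ne_top_of_nonempty_of_bounded (hne _) (hne _) (hbdd _) (hbdd _)))
  rw [Metric.le_infDist (hne A)]
  rintro _ ⟨C, hC, rfl⟩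
  rw [dist_cls, delta_comm]
  exact h C hC.1

/-- There is a set `A` at distance `1` from almost every set (in particular `A` is dispersive) such
that almost every set computes no weakly 1-generic set relative to `A` (in particular `A` does not
have property (W)); moreover almost every degree contains a set at distance `1` from every set
computable from `A`. -/
theorem result : ∃ A : ℕ → Bool,
    Dispersive A ∧ ¬ PropertyW A ∧
    (∀ᵐ B ∂coin, H A B = 1) ∧
    (∀ᵐ B ∂coin, ¬ ∃ G, TRed G B ∧ WeaklyGeneric A G) ∧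
    (∀ᵐ B ∂coin, ∃ D, TEquiv D B ∧ ∀ C, TRed C A → delta C D = 1) := by
  obtain ⟨A, h1, h2⟩ := Pool.Agent.Lib.MP_f26228_lc.main_ae
  have h1' : ∀ᵐ B ∂coin, ∃ D, TEquiv D B ∧ ∀ C, TRed C A → 1 ≤ delta C D := h1
  have h2' : ∀ᵐ B ∂coin, ¬ ∃ G, TRed G B ∧ WeaklyGeneric A G := h2
  have hH : ∀ᵐ B ∂coin, H A B = 1 := by
    filter_upwards [h1'] with B hB
    obtain ⟨D, hD, hC⟩ := hB
    exact le_antisymm (H_le_one A B) (one_le_H hD hC)
  refine ⟨A, ?_, ?_, hH, h2', ?_⟩
  · intro hcon
    obtain ⟨B, hB1, hB2⟩ := (hcon.and hH).exists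
    rw [hB1] at hB2
    norm_num at hB2
  · intro hcon
    obtain ⟨B, hB1, hB2⟩ := (Filter.Eventually.and (show ∀ᵐ B ∂coin, _ from hcon) h2').exists
    exact hB2 hB1
  · filter_upwards [h1'] with B hB
    obtain ⟨D, hD, hC⟩ := hB
    exact ⟨D, hD, fun C hCA => le_antisymm (delta_le_one _ _) (hC C hCA)⟩

end Pool.Agent.Results.MP_f26228_lc.DispersiveNotW
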